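import Pool.Agent.V11118.Lamp

/-!
The survival number and the unrestricted Voronoi count can differ.
-/

namespace Pool.Agent.Results.MP_785f4e_co.LamplighterDiffers

open Pool.Agent.V11118.Survival Pool.Agent.V11118.Lamp Filter Topology

theorem result : ∃ (V : Type) (G : SimpleGraph V), Nice G ∧ survival G ≤ 6 ∧
    Tendsto (fun n => (minI G n : ℕ∞)) atTop (𝓝 ⊤) :=
  ⟨_, LG, Pool.Agent.V11118.Lamp.nice, Pool.Agent.V11118.Lamp.survival_le,
    Pool.Agent.V11118.Lamp.tendsto_minI⟩

end Pool.Agent.Results.MP_785f4e_co.LamplighterDiffers
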